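import Pool.Agent.Helper14.BSC.Stmts2

set_option autoImplicit false

/-!
# Module LZG : every finitely generated field is finite over a field with `LZ`
-/

namespace Pool.Agent.Helper14.BSC

open IntermediateField

theorem lzg_equiv {F G : Type} [Field F] [Field G] (e : F ≃+* G) (h : LZ F) : LZ G := by
  intro b U hb hU hL
  have hmap : ∀ x : G, (e.symm : G →+* F) x = e.symm x := fun x => rfl
  have hb' : Cls (fun N => e.symm (b N)) := by
    refine ⟨fun N hN h0 => hb.1 N hN ((map_eq_zero e.symm).mp h0), fun N M hN hM => ?_⟩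
    obtain ⟨t, ht⟩ := hb.2 N M hN hM
    exact ⟨e.symm t, by simp only [ht, map_mul, map_pow]⟩
  have hU' : (U.map (e.symm : G →+* F)).eval 0 ≠ 0 := by
    have h0 := Polynomial.eval_map_apply (p := U) (e.symm : G →+* F) 0
    rw [map_zero] at h0
    rw [h0]
    intro h1
    exact hU ((map_eq_zero (e.symm : G →+* F)).mp h1)
  have hL' : LocC (fun N => e.symm (b N)) (U.map (e.symm : G →+* F)) := by
    intro p _
    obtain ⟨d, hd, hd'⟩ := hL p
    refine ⟨d, hd, fun j E hE hjE => ?_⟩
    obtain ⟨Φ, hΦ, hev, E', hE', hN⟩ := hd' (j.comp (e.symm : G →+* F)) E hE fun a => hjE _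
    refine ⟨Φ, hΦ, ?_, E', hE', fun N hN0 δ hδ => ?_⟩
    · rw [Polynomial.map_map]
      exact hev
    · obtain ⟨y, hy, w, hw, h1, h2, h3⟩ := hN N hN0 δ hδ
      exact ⟨y, hy, w, hw, h1, h2, h3⟩
  obtain ⟨r, hr, hr'⟩ := h _ _ hb' hU' hL'
  refine ⟨e r, fun h0 => hr ((map_eq_zero e).mp h0), fun N hN => ?_⟩
  obtain ⟨t, ht⟩ := hr' N hN
  refine ⟨e t, ?_⟩
  have := congrArg e ht
  simpa using this

theorem lzg_top {k : Type} [Field k] [CharZero k] (F : IntermediateField ℚ k) (hF : F.FG) :
    (⊤ : IntermediateField ℚ F).FG := by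
  rw [fg_top_iff]
  have h1 := essFiniteType_iff.mpr hF
  have e : (DivisionRing.toRatAlgebra : Algebra ℚ F) = IntermediateField.algebra' F :=
    Subsingleton.elim _ _
  rw [e]
  exact h1

theorem lzg_main (hQ : ST_LZQ) (hT : ST_LZT) (k : Type) [Field k] [CharZero k] [DecidableEq k]
    (s : Finset k) :
    ∃ F : IntermediateField ℚ k, F.FG ∧ LZ F ∧ ∀ y ∈ s, IsAlgebraic F y := by
  induction s using Finset.induction_on with
  | empty =>
    refine ⟨⊥, fg_bot, lzg_equiv (botEquiv ℚ k).symm.toRingEquiv hQ, fun y hy => ?_⟩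
    simp at hy
  | insert x s _ ih =>
    obtain ⟨F, hF, hLZ, hs⟩ := ih
    by_cases hx : IsAlgebraic F x
    · refine ⟨F, hF, hLZ, fun y hy => ?_⟩
      rcases Finset.mem_insert.mp hy with rfl | hy
      · exact hx
      · exact hs y hy
    · have h1 : LZ (RatFunc F) := hT F (lzg_top F hF) hLZ
      have h2 : LZ (F⟮x⟯) := lzg_equiv (RatFunc.algEquivOfTranscendental x hx).toRingEquiv h1
      have hmem : ∀ y : k, y ∈ F⟮x⟯ ↔ y ∈ adjoin ℚ ((F : Set k) ∪ {x}) := by
        intro y
        rw [← restrictScalars_adjoin ℚ F ({x} : Set k)]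
        rfl
      have hle : F ≤ adjoin ℚ ((F : Set k) ∪ {x}) := fun y hy =>
        subset_adjoin ℚ _ (Or.inl hy)
      have e : F⟮x⟯ ≃+* adjoin ℚ ((F : Set k) ∪ {x}) :=
        { toFun := fun y => ⟨y, (hmem _).mp y.2⟩
          invFun := fun y => ⟨y, (hmem _).mpr y.2⟩
          left_inv := fun y => rfl
          right_inv := fun y => rfl
          map_mul' := fun y z => rfl
          map_add' := fun y z => rfl }
      refine ⟨adjoin ℚ ((F : Set k) ∪ {x}), ?_, lzg_equiv e h2, fun y hy => ?_⟩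
      · rw [adjoin_union, adjoin_self]
        exact fg_sup hF (fg_adjoin_of_finite (Set.finite_singleton x))
      · rcases Finset.mem_insert.mp hy with rfl | hy
        · have hy' : y ∈ adjoin ℚ ((F : Set k) ∪ {y}) := subset_adjoin ℚ _ (Or.inr rfl)
          exact isAlgebraic_algebraMap (R := adjoin ℚ ((F : Set k) ∪ {y})) (A := k)
            (⟨y, hy'⟩ : adjoin ℚ ((F : Set k) ∪ {y}))
        · obtain ⟨q, hq, hev⟩ := hs y hy
          refine ⟨q.map (inclusion hle).toRingHom, ?_, ?_⟩
          · exact (Polynomial.map_ne_zero_iff (inclusion hle).toRingHom.injective).mpr hq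
          · rw [Polynomial.aeval_def, Polynomial.eval₂_map]
            exact hev

theorem st_LZG (hQ : ST_LZQ) (hT : ST_LZT) : ST_LZG := by
  classical
  intro k _ _ hk
  obtain ⟨s, hs⟩ := hk
  obtain ⟨F, hF, hLZ, halg⟩ := lzg_main hQ hT k s
  refine ⟨F, inferInstance, inferInstance, inferInstance, ?_, lzg_top F hF, hLZ⟩
  have h1 : adjoin F (s : Set k) = ⊤ := by
    rw [eq_top_iff]
    intro x _
    have hx : x ∈ adjoin ℚ (s : Set k) := by rw [hs]; exact mem_top
    have h2 : adjoin ℚ (s : Set k) ≤ adjoin ℚ ((F : Set k) ∪ s) :=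
      adjoin.mono _ _ _ Set.subset_union_right
    have h3 := h2 hx
    rw [← restrictScalars_adjoin ℚ F (s : Set k)] at h3
    exact h3
  have h2 : FiniteDimensional F (adjoin F (s : Set k)) :=
    finiteDimensional_adjoin fun x hx => (halg x hx).isIntegral
  rw [h1] at h2
  exact LinearEquiv.finiteDimensional (topEquiv (F := F) (E := k)).toLinearEquiv

end Pool.Agent.Helper14.BSC
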