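import Pool.Agent.Helper14.BSC.Stmts

set_option autoImplicit false

/-!
# Module OF3 : the rigid valuation ring lies over that of `FF S₁` (`ℓ = 3`)
-/

namespace Pool.Agent.Helper14.BSC

section

variable {k Ω : Type} [Field k] [Field Ω] [Algebra k Ω] {p : ℕ} [Fact p.Prime]

theorem of3_mul (Lc : Loc k Ω p) (x y : Acl k Ω) : nm Lc (x * y) = nm Lc x * nm Lc y := by
  unfold nm; rw [map_mul, norm_mul]

theorem of3_pow (Lc : Loc k Ω p) (x : Acl k Ω) (n : ℕ) : nm Lc (x ^ n) = nm Lc x ^ n := by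
  unfold nm; rw [map_pow, norm_pow]

theorem of3_inv (Lc : Loc k Ω p) (x : Acl k Ω) : nm Lc x⁻¹ = (nm Lc x)⁻¹ := by
  unfold nm; rw [map_inv₀, norm_inv]

theorem of3_one (Lc : Loc k Ω p) : nm Lc 1 = 1 := by
  unfold nm; rw [map_one, norm_one]

theorem of3_zero (Lc : Loc k Ω p) : nm Lc 0 = 0 := by
  unfold nm; rw [map_zero, norm_zero]

theorem of3_pos (Lc : Loc k Ω p) {x : Acl k Ω} (hx : x ≠ 0) : 0 < nm Lc x := by
  unfold nm
  rw [norm_pos_iff]
  intro h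
  exact hx ((map_eq_zero Lc.ι).mp h)

theorem of3_add_eq (Lc : Loc k Ω p) {x : Acl k Ω} (hx : 1 < nm Lc x) :
    nm Lc (1 + x) = nm Lc x := by
  unfold nm at hx ⊢
  rw [map_add, map_one]
  have h : ‖(1 : ℂ_[p])‖ ≠ ‖Lc.ι x‖ := by rw [norm_one]; exact hx.ne
  rw [IsUltrametricDist.norm_add_eq_max_of_norm_ne_norm h, norm_one]
  exact max_eq_right hx.le

theorem of3_pi_ne (Lc : Loc k Ω p) : Lc.π ≠ 0 := by
  intro h
  have h1 := Lc.posπ
  rw [h, map_zero, norm_zero] at h1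
  exact lt_irrefl _ h1

/-- integral exponents of the uniformizer are determined by the norm -/
theorem of3_inj (Lc : Loc k Ω p) {i j : ℤ} (h : ‖Lc.ι Lc.π‖ ^ i = ‖Lc.ι Lc.π‖ ^ j) : i = j :=
  zpow_right_injective₀ Lc.posπ Lc.ltπ.ne h

/-- the norm of an `n`-th power is `‖π‖^(n i)` -/
theorem of3_cube (Lc : Loc k Ω p) (n : ℕ) {x : FF Lc.S₁} {j : ℤ} (hj : nm Lc x = ‖Lc.ι Lc.π‖ ^ j)
    {y : FF Lc.S₁} (h : x = y ^ n) (hn : n ≠ 0) : (n : ℤ) ∣ j := by
  have hpos : 0 < nm Lc x := by rw [hj]; exact zpow_pos Lc.posπ _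
  have hy : (y : Acl k Ω) ≠ 0 := by
    intro h0
    have : (x : Acl k Ω) = 0 := by
      rw [h]
      push_cast
      rw [h0, zero_pow hn]
    rw [this, of3_zero] at hpos
    exact lt_irrefl _ hpos
  obtain ⟨i, hi⟩ := Lc.disc y y.2 hy
  have h1 : nm Lc (x : Acl k Ω) = (‖Lc.ι Lc.π‖ ^ i) ^ n := by
    rw [h]
    push_cast
    rw [of3_pow]
    unfold nm
    rw [hi]
  rw [hj, ← zpow_natCast, ← zpow_mul] at h1
  have h2 := of3_inj Lc h1
  exact ⟨i, by rw [h2]; ring⟩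

/-- a power in `NN D S` of elements of `FF S` comes from `FF S` -/
theorem of3_root (hROOT : ST_ROOT) (D : Sec k Ω) (S : Set (Acl k Ω)) (n : ℕ) (hn : 0 < n)
    {x : FF S} {y : NN D S} (h : inc D S x = y ^ n) : ∃ d : FF S, x = d ^ n := by
  obtain ⟨d, hd⟩ := hROOT k Ω D S n hn y x h.symm
  refine ⟨d, ?_⟩
  rw [hd, ← map_pow] at h
  exact (inc D S).toRingHom.injective h

end

/-- general form: `P x` is the predicate being an `n`-th power -/
theorem of3_main {k Ω : Type} [Field k] [Field Ω] [Algebra k Ω] [CharZero k] [IsAlgClosed Ω]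
    (hPRU : ST_PRU) (D : Sec k Ω) (p : ℕ) [Fact p.Prime] (Lc : Loc k Ω p) (n : ℕ) (hn : 2 ≤ n)
    (hnp : ¬ p ∣ n) (O : ValuationSubring (NN D Lc.S₁))
    (hO : ∀ (x : FF Lc.S₁) (j : ℤ), nm Lc x = ‖Lc.ι Lc.π‖ ^ j → ¬ (n : ℤ) ∣ j →
      (inc D Lc.S₁ x ∈ O ↔ ∃ y : FF Lc.S₁, 1 + x = y ^ n)) : Over D Lc O := by
  -- the uniformizer as an element of the fixed field
  set P : FF Lc.S₁ := ⟨Lc.π, Lc.memπ⟩ with hP
  have hPne : P ≠ 0 := by
    intro h
    exact of3_pi_ne Lc (congrArg Subtype.val h)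
  have hPn : nm Lc (P : Acl k Ω) = ‖Lc.ι Lc.π‖ ^ (1 : ℤ) := by rw [zpow_one]; rfl
  have hn1 : ¬ (n : ℤ) ∣ 1 := by
    intro h
    have := Int.le_of_dvd one_pos h
    omega
  have hval : ∀ x : FF Lc.S₁, x ≠ 0 → ∃ j : ℤ, nm Lc (x : Acl k Ω) = ‖Lc.ι Lc.π‖ ^ j := by
    intro x hx
    exact Lc.disc x x.2 fun h => hx (Subtype.ext h)
  -- norm less than one, exponent not divisible
  have s1 : ∀ (x : FF Lc.S₁) (j : ℤ), nm Lc x = ‖Lc.ι Lc.π‖ ^ j → ¬ (n : ℤ) ∣ j → 0 < j →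
      inc D Lc.S₁ x ∈ O := by
    intro x j hj hnj hj0
    rw [hO x j hj hnj]
    refine hPRU k Ω p Lc Lc.S₁ le_rfl n hnp (1 + x) ?_
    have h1 : ((1 + x : FF Lc.S₁) : Acl k Ω) - 1 = (x : Acl k Ω) := by
      push_cast; ring
    rw [h1, hj]
    exact zpow_lt_one₀ Lc.posπ Lc.ltπ hj0
  -- norm less than one
  have s2 : ∀ (x : FF Lc.S₁) (j : ℤ), nm Lc x = ‖Lc.ι Lc.π‖ ^ j → 0 < j →
      inc D Lc.S₁ x ∈ O := by
    intro x j hj hj0
    by_cases hnj : (n : ℤ) ∣ j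
    · obtain ⟨c, hc⟩ := hnj
      have hx : x = P * (x * P⁻¹) := by
        rw [mul_comm x, ← mul_assoc, mul_inv_cancel₀ hPne, one_mul]
      rw [hx, map_mul]
      have hc1 : 1 ≤ c := by
        by_contra hlt
        have : c ≤ 0 := by omega
        have : (n : ℤ) * c ≤ 0 := mul_nonpos_of_nonneg_of_nonpos (by omega) this
        omega
      have hj2 : 2 ≤ j := by nlinarith
      refine mul_mem (s1 P 1 hPn hn1 one_pos) (s1 (x * P⁻¹) (j - 1) ?_ ?_ (by omega))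
      · push_cast
        rw [of3_mul, of3_inv, hj, hPn, ← zpow_neg, ← zpow_add₀ Lc.posπ.ne']
        rfl
      · intro hd
        apply hn1
        have : (1 : ℤ) = j - (j - 1) := by ring
        rw [this]
        exact dvd_sub ⟨c, hc⟩ hd
    · exact s1 x j hj hnj hj0
  have s3 : ∀ x : FF Lc.S₁, nm Lc x ≤ 1 → inc D Lc.S₁ x ∈ O := by
    intro x hx
    by_cases hx0 : x = 0
    · rw [hx0, map_zero]; exact zero_mem _
    rcases hx.lt_or_eq with hlt | heq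
    · obtain ⟨j, hj⟩ := hval x hx0
      refine s2 x j hj ?_
      by_contra hj0
      rw [hj] at hlt
      exact absurd hlt (not_lt.mpr (one_le_zpow_of_nonpos₀ Lc.posπ Lc.ltπ.le (by omega)))
    · obtain ⟨N, hN0, hN⟩ := Lc.finres
      have h1 := hN x x.2 heq
      have h2 : inc D Lc.S₁ (x ^ N - 1) ∈ O := by
        by_cases h0 : x ^ N - 1 = 0
        · rw [h0, map_zero]; exact zero_mem _
        obtain ⟨j, hj⟩ := hval _ h0
        refine s2 _ j hj ?_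
        by_contra hj0
        have h3 : nm Lc ((x ^ N - 1 : FF Lc.S₁) : Acl k Ω) < 1 := by
          push_cast; exact h1
        rw [hj] at h3
        exact absurd h3 (not_lt.mpr (one_le_zpow_of_nonpos₀ Lc.posπ Lc.ltπ.le (by omega)))
      have h3 : inc D Lc.S₁ x ^ N ∈ O := by
        have : inc D Lc.S₁ x ^ N = inc D Lc.S₁ (x ^ N - 1) + 1 := by
          rw [map_sub, map_pow, map_one]; ring
        rw [this]
        exact add_mem h2 (one_mem _)
      rw [← ValuationSubring.valuation_le_one_iff] at h3 ⊢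
      rw [map_pow] at h3
      exact (pow_le_one_iff hN0.ne').mp h3
  -- the inverse of the uniformizer is not in O
  have s4 : inc D Lc.S₁ P⁻¹ ∉ O := by
    have hn' : nm Lc ((P⁻¹ : FF Lc.S₁) : Acl k Ω) = ‖Lc.ι Lc.π‖ ^ (-1 : ℤ) := by
      push_cast
      rw [of3_inv, hPn, zpow_one, zpow_neg_one]
    have hn2 : ¬ (n : ℤ) ∣ -1 := by rw [dvd_neg]; exact hn1
    rw [hO _ (-1) hn' hn2]
    rintro ⟨y, hy⟩
    have h1 : 1 < nm Lc ((P⁻¹ : FF Lc.S₁) : Acl k Ω) := by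
      rw [hn', zpow_neg_one]
      exact (one_lt_inv₀ Lc.posπ).mpr Lc.ltπ
    have h2 : nm Lc ((1 + P⁻¹ : FF Lc.S₁) : Acl k Ω) = ‖Lc.ι Lc.π‖ ^ (-1 : ℤ) := by
      rw [← hn', ← of3_add_eq Lc h1]
      push_cast; rfl
    exact hn2 (of3_cube Lc n h2 hy (by omega))
  intro x
  refine ⟨fun hx => ?_, s3 x⟩
  by_contra hlt
  rw [not_le] at hlt
  have hx0 : x ≠ 0 := by
    rintro rfl
    rw [show ((0 : FF Lc.S₁) : Acl k Ω) = 0 from rfl, of3_zero] at hlt
    linarith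
  obtain ⟨j, hj⟩ := hval x hx0
  have hj0 : j ≤ -1 := by
    by_contra hlt'
    rw [hj] at hlt
    exact absurd hlt (not_lt.mpr (zpow_le_one₀ Lc.posπ Lc.ltπ.le (by omega)))
  apply s4
  have e1 : P⁻¹ = x * (x * P)⁻¹ := by
    rw [mul_inv, ← mul_assoc, mul_inv_cancel₀ hx0, one_mul]
  rw [e1, map_mul]
  refine mul_mem hx (s3 _ ?_)
  push_cast
  rw [of3_inv, of3_mul, hj, hPn, ← zpow_add₀ Lc.posπ.ne', ← zpow_neg]
  exact zpow_le_one₀ Lc.posπ Lc.ltπ.le (by omega)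

theorem of3_c3 (hROOT : ST_ROOT) {k Ω : Type} [Field k] [Field Ω] [Algebra k Ω] (D : Sec k Ω)
    (S : Set (Acl k Ω)) (x : FF S) : C3 (inc D S x) ↔ C3 x := by
  constructor
  · rintro ⟨y, hy⟩
    exact of3_root hROOT D S 3 (by norm_num) hy
  · rintro ⟨y, hy⟩
    exact ⟨inc D S y, by rw [hy, map_pow]⟩

theorem st_OF3 (hPRU : ST_PRU) (hROOT : ST_ROOT) : ST_OF3 := by
  intro k Ω _ _ _ _ _ D p _ hp Lc e he O hO
  have hnp : ¬ p ∣ 3 := by
    intro h
    exact hp ((Nat.prime_dvd_prime_iff_eq Fact.out Nat.prime_three).mp h)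
  refine of3_main hPRU D p Lc 3 (by norm_num) hnp O fun x j hj hnj => ?_
  have hen : nm Lc (e : Acl k Ω) = 1 := he.2.1
  have key : ∀ i : ℕ, ¬ C3 (e ^ i * x) := by
    rintro i ⟨y, hy⟩
    refine hnj (of3_cube Lc 3 (j := j) ?_ hy (by norm_num))
    push_cast
    rw [of3_mul, of3_pow, hen, one_pow, one_mul, hj]
  have hodd : Od3 (inc D Lc.S₁ e) (inc D Lc.S₁ x) := by
    refine ⟨?_, ?_, ?_⟩
    · rw [of3_c3 hROOT]
      have := key 0
      rwa [pow_zero, one_mul] at this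
    · rw [← map_mul, of3_c3 hROOT]
      have := key 1
      rwa [pow_one] at this
    · rw [← map_pow, ← map_mul, of3_c3 hROOT]
      exact key 2
  have h1 : C3 (1 + inc D Lc.S₁ x) ↔ C3 (1 + x) := by
    rw [← of3_c3 hROOT D, map_add, map_one]
  rw [hO]
  unfold RigO3
  constructor
  · rintro (⟨_, h⟩ | ⟨h, _⟩)
    · exact h1.mp h
    · exact absurd hodd h
  · intro h
    exact Or.inl ⟨hodd, h1.mpr h⟩

end Pool.Agent.Helper14.BSC
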