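import Pool.Agent.Helper13.BSC.OF3

set_option autoImplicit false

/-!
# Module OF2 : the rigid valuation ring lies over that of `FF S₁` (`ℓ = 2`)
-/

namespace Pool.Agent.Helper14.BSC

theorem of2_sq (hROOT : ST_ROOT) {k Ω : Type} [Field k] [Field Ω] [Algebra k Ω] (D : Sec k Ω)
    (S : Set (Acl k Ω)) (x : FF S) : IsSquare (inc D S x) ↔ ∃ y : FF S, x = y ^ 2 := by
  constructor
  · rintro ⟨y, hy⟩
    rw [← sq] at hy
    exact of3_root hROOT D S 2 (by norm_num) hy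
  · rintro ⟨y, hy⟩
    exact ⟨inc D S y, by rw [hy, map_pow, sq]⟩

theorem st_OF2 (hPRU : ST_PRU) (hROOT : ST_ROOT) : ST_OF2 := by
  intro k Ω _ _ _ _ _ D p _ hp Lc e he O hO
  have hnp : ¬ p ∣ 2 := by
    intro h
    exact hp ((Nat.prime_dvd_prime_iff_eq Fact.out Nat.prime_two).mp h)
  refine of3_main hPRU D p Lc 2 (by norm_num) hnp O fun x j hj hnj => ?_
  have hen : nm Lc (e : Acl k Ω) = 1 := he.2.1
  have key : ∀ i : ℕ, ¬ ∃ y : FF Lc.S₁, e ^ i * x = y ^ 2 := by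
    rintro i ⟨y, hy⟩
    refine hnj (of3_cube Lc 2 (j := j) ?_ hy (by norm_num))
    push_cast
    rw [of3_mul, of3_pow, hen, one_pow, one_mul, hj]
  have hodd : Od (inc D Lc.S₁ e) (inc D Lc.S₁ x) := by
    refine ⟨?_, ?_⟩
    · rw [of2_sq hROOT]
      have := key 0
      rwa [pow_zero, one_mul] at this
    · rw [← map_mul, of2_sq hROOT]
      have := key 1
      rwa [pow_one] at this
  have h1 : IsSquare (1 + inc D Lc.S₁ x) ↔ ∃ y : FF Lc.S₁, 1 + x = y ^ 2 := by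
    rw [← of2_sq hROOT D, map_add, map_one]
  rw [hO]
  unfold RigO
  constructor
  · rintro (⟨_, h⟩ | ⟨h, _⟩)
    · exact h1.mp h
    · exact absurd hodd h
  · intro h
    exact Or.inl ⟨hodd, h1.mpr h⟩

end Pool.Agent.Helper14.BSC
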